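import Pool.Agent.X181.LK.Fail

/-!
# `(L_3)` does not imply `(L_2)`

`CondL k U g Γ` is condition `(L_k)` for the Riemannian metric `g` on the open set `U` of `ℝⁿ`:
`g(Ric_L(T), T) ≥ 0` for all symmetric `(0,k)`-tensors `T` at all points of `U`.
-/

set_option autoImplicit false

namespace Pool.Agent.Results.MP_9e0eae_gt.NotMonotone

open Pool.Agent.X181 Pool.Agent.X181.LK

/-- There is a Riemannian metric on a ball of `ℝ⁴` which satisfies `(L_3)` and not `(L_2)`; so the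
monotonicity `(L_k) ⟹ (L_{k-1})` fails for `k = 3` in dimension four. -/
theorem result :
    (∃ (r : ℝ) (g : (Fin 4 → ℝ) → (Fin 4 → ℝ) → (Fin 4 → ℝ) → ℝ)
      (Γ : (Fin 4 → ℝ) → (Fin 4 → ℝ) →L[ℝ] (Fin 4 → ℝ) →L[ℝ] Fin 4 → ℝ), 0 < r ∧
      IsRiemMetric (Metric.ball 0 r) g ∧ IsLeviCivita (Metric.ball 0 r) g Γ ∧
      CondL 3 (Metric.ball 0 r) g Γ ∧ ¬CondL 2 (Metric.ball 0 r) g Γ) ∧
    ¬∀ k : ℕ, 2 ≤ k → ∀ n : ℕ, 2 ≤ n → ∀ (U : Set (Fin n → ℝ))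
      (g : (Fin n → ℝ) → (Fin n → ℝ) → (Fin n → ℝ) → ℝ)
      (Γ : (Fin n → ℝ) → (Fin n → ℝ) →L[ℝ] (Fin n → ℝ) →L[ℝ] Fin n → ℝ),
      IsOpen U → IsRiemMetric U g → IsLeviCivita U g Γ → CondL k U g Γ → CondL (k - 1) U g Γ := by
  have main : ∃ (r : ℝ) (g : (Fin 4 → ℝ) → (Fin 4 → ℝ) → (Fin 4 → ℝ) → ℝ)
      (Γ : (Fin 4 → ℝ) → (Fin 4 → ℝ) →L[ℝ] (Fin 4 → ℝ) →L[ℝ] Fin 4 → ℝ), 0 < r ∧
      IsRiemMetric (Metric.ball 0 r) g ∧ IsLeviCivita (Metric.ball 0 r) g Γ ∧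
      CondL 3 (Metric.ball 0 r) g Γ ∧ ¬CondL 2 (Metric.ball 0 r) g Γ := by
    obtain ⟨r, hr, hU⟩ := Metric.isOpen_iff.1 UU_open 0 zero_mem
    refine ⟨r, gg, GG, hr, ⟨fun u v => ?_, fun x _ => gg_symm x, fun x _ => gg_add x,
      fun x _ => gg_smul x, fun x _ => gg_pos x⟩,
      ⟨isLC.smooth.mono (Set.subset_univ _), fun x _ => isLC.symm x (Set.mem_univ x),
        fun x _ => isLC.metric x (Set.mem_univ x)⟩,
      fun x hx => condL3 x (hU hx), not_condL2 _ (Metric.mem_ball_self hr)⟩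
    exact ((contDiffOn_const.clm_apply (smooth_df_apply isOpen_univ ff_smooth.contDiffOn
      u)).clm_apply (smooth_df_apply isOpen_univ ff_smooth.contDiffOn v)).mono (Set.subset_univ _)
  refine ⟨main, fun h => ?_⟩
  obtain ⟨r, g, Γ, hr, hg, hΓ, h3, h2⟩ := main
  exact h2 (h 3 (by norm_num) 4 (by norm_num) _ g Γ Metric.isOpen_ball hg hΓ h3)

end Pool.Agent.Results.MP_9e0eae_gt.NotMonotone
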